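import Pool.Agent.Helper68.Dom.Goals

/-!
# Project DOM: LOWV
-/

namespace NApexGraphs.Dom.Helper83

open SimpleGraph NApexGraphs NApexGraphs.Dom

theorem gLOWV (hL : Goals.LEMD) : Goals.LOWV := by
  classical
  intro V _ G Z O C u x a b h5 huZ hxZ hOZ huO hxO hux huadj haO hbO haC hbC hxa hxb hCO hCne hcl
  by_contra hcon
  push Not at hcon
  let Q : SimpleGraph V := G ⊔ SimpleGraph.edge a b
  have hQ : ∀ p q, Q.Adj p q ↔ G.Adj p q ∨ ((p = a ∧ q = b ∨ p = b ∧ q = a) ∧ p ≠ q) := by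
    intro p q
    rw [SimpleGraph.sup_adj, SimpleGraph.edge_adj]
  have hfin : (C ∪ {a, b}).Finite := Set.toFinite _
  let W : Finset V := hfin.toFinset
  have hW : (W : Set V) = C ∪ {a, b} := hfin.coe_toFinset
  have hWO : (W : Set V) ⊆ O := by
    rw [hW]
    rintro y (hy | hy | hy)
    · exact hCO hy
    · rw [hy]; exact haO
    · rw [Set.mem_singleton_iff] at hy
      rw [hy]; exact hbO
  have hmW : ∀ y, y ∈ W ↔ y ∈ C ∨ y = a ∨ y = b := by
    intro y
    rw [← Finset.mem_coe, hW]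
    rfl
  obtain ⟨B, hB, hBs⟩ := hL V Q W a b ((hmW a).2 (Or.inr (Or.inl rfl)))
    ((hmW b).2 (Or.inr (Or.inr rfl))) (by
      by_cases hab : a = b
      · exact Or.inl hab
      · exact Or.inr ((hQ a b).2 (Or.inr ⟨Or.inl ⟨rfl, rfl⟩, hab⟩)))
    (by
      obtain ⟨v, hv⟩ := hCne
      exact ⟨v, (hmW v).2 (Or.inl hv), fun h => haC (h ▸ hv), fun h => hbC (h ▸ hv)⟩)
    (by
      intro v hv hva hvb hlow
      have hvC : v ∈ C := by
        rcases (hmW v).1 hv with h | h | h
        · exact h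
        · exact absurd h hva
        · exact absurd h hvb
      apply hcon v hvC
      intro y1 h1 y2 h2 y3 h3 a1 a2 a3
      exact hlow y1 ((hmW y1).2 (hcl v hvC y1 h1 a1)) y2 ((hmW y2).2 (hcl v hvC y2 h2 a2))
        y3 ((hmW y3).2 (hcl v hvC y3 h3 a3)) ((hQ _ _).2 (Or.inl a1)) ((hQ _ _).2 (Or.inl a2))
        ((hQ _ _).2 (Or.inl a3)))
  rw [isModel_iff] at hB
  obtain ⟨hc, hd, ht⟩ := hB
  have hBO : ∀ k, B k ⊆ O := fun k => (hBs k).trans hWO
  let B' : Fin 4 → Set V := fun k => B k ∪ {z | z = x ∧ a ∈ B k}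
  have hsub : ∀ k, B k ⊆ B' k := fun k => Set.subset_union_left
  have hx' : ∀ k, a ∈ B k → x ∈ B' k := fun k hk => Or.inr ⟨rfl, hk⟩
  have hconn : ∀ k, Conn G (B' k) := by
    intro k
    by_cases hak : a ∈ B k
    · refine ⟨⟨a, hsub k hak⟩, ?_⟩
      intro A hA hne hAcl
      have h1 : (B k ∩ A).Nonempty := by
        obtain ⟨y, hy⟩ := hne
        rcases hA hy with h | ⟨h, _⟩
        · exact ⟨y, h, hy⟩
        · refine ⟨a, hak, ?_⟩
          apply hAcl y hy a (hsub k hak)
          rw [h]; exact hxa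
      have h2 : B k ⊆ A := by
        apply (hc k).subset_of_closed h1
        intro y hy hyA z hz hyz
        rcases (hQ y z).1 hyz with h | ⟨⟨h3, h4⟩ | ⟨h3, h4⟩, _⟩
        · exact hAcl y hyA z (hsub k hz) h
        · have hxA : x ∈ A := hAcl y hyA x (hx' k hak) (by rw [h3]; exact hxa.symm)
          exact hAcl x hxA z (hsub k hz) (by rw [h4]; exact hxb)
        · have hxA : x ∈ A := hAcl y hyA x (hx' k hak) (by rw [h3]; exact hxb.symm)
          exact hAcl x hxA z (hsub k hz) (by rw [h4]; exact hxa)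
      rintro y (hy | ⟨hy, _⟩)
      · exact h2 hy
      · rw [hy]
        exact hAcl a (h2 hak) x (hx' k hak) hxa.symm
    · have h1 : B' k = B k := by
        apply Set.Subset.antisymm _ (hsub k)
        rintro y (hy | ⟨_, hy⟩)
        · exact hy
        · exact absurd hy hak
      rw [h1]
      apply (hc k).mono
      intro y hy z hz hyz
      rcases (hQ y z).1 hyz with h | ⟨⟨h3, h4⟩ | ⟨h3, h4⟩, _⟩
      · exact h
      · exact absurd (h3 ▸ hy) hak
      · exact absurd (h4 ▸ hz) hak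
  have hxB : ∀ k, x ∉ B k := fun k h => hxO (hBO k h)
  have hdisj : ∀ k l, k ≠ l → Disjoint (B' k) (B' l) := by
    intro k l hkl
    rw [Set.disjoint_left]
    rintro y (hy | ⟨hy, hyk⟩) (hy' | ⟨hy', hyl⟩)
    · exact Set.disjoint_left.1 (hd k l hkl) hy hy'
    · exact hxB k (hy' ▸ hy)
    · exact hxB l (hy ▸ hy')
    · exact Set.disjoint_left.1 (hd k l hkl) hyk hyl
  have htouch : ∀ k l, k ≠ l → Touch G (B' k) (B' l) := by
    intro k l hkl
    obtain ⟨p, hp, q, hq, hpq⟩ := ht k l (by rw [SimpleGraph.top_adj]; exact hkl)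
    rcases (hQ p q).1 hpq with h | ⟨⟨h3, h4⟩ | ⟨h3, h4⟩, _⟩
    · exact ⟨p, hsub k hp, q, hsub l hq, h⟩
    · exact ⟨x, hx' k (h3 ▸ hp), q, hsub l hq, by rw [h4]; exact hxb⟩
    · exact ⟨p, hsub k hp, x, hx' l (h4 ▸ hq), by rw [h3]; exact hxb.symm⟩
  have hut : ∀ k, Touch G {u} (B' k) := by
    intro k
    obtain ⟨y, hy⟩ := (hc k).1
    exact ⟨u, rfl, y, hsub k hy, huadj y (hBO k hy)⟩
  have hud : ∀ k, Disjoint ({u} : Set V) (B' k) := by
    intro k
    rw [Set.disjoint_singleton_left]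
    rintro (h | ⟨h, _⟩)
    · exact huO (hBO k h)
    · exact hux h
  have hBZ : ∀ k, B' k ⊆ Z := by
    rintro k y (hy | ⟨hy, _⟩)
    · exact hOZ (hBO k hy)
    · rw [hy]; exact hxZ
  apply h5
  apply hasK5_sets {u} (B' 0) (B' 1) (B' 2) (B' 3)
  · intro S hS
    simp only [List.mem_cons, List.not_mem_nil, or_false] at hS
    rcases hS with h | h | h | h | h <;> rw [h]
    · exact Conn.singleton G u
    · exact hconn 0
    · exact hconn 1
    · exact hconn 2
    · exact hconn 3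
  · simp only [List.pairwise_cons, List.mem_cons, List.not_mem_nil, or_false, forall_eq_or_imp,
      forall_eq, IsEmpty.forall_iff, implies_true, List.Pairwise.nil, and_true]
    exact ⟨⟨hud 0, hud 1, hud 2, hud 3⟩, ⟨hdisj 0 1 (by decide), hdisj 0 2 (by decide),
      hdisj 0 3 (by decide)⟩, ⟨hdisj 1 2 (by decide), hdisj 1 3 (by decide)⟩,
      hdisj 2 3 (by decide)⟩
  · simp only [List.pairwise_cons, List.mem_cons, List.not_mem_nil, or_false, forall_eq_or_imp,
      forall_eq, IsEmpty.forall_iff, implies_true, List.Pairwise.nil, and_true]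
    exact ⟨⟨hut 0, hut 1, hut 2, hut 3⟩, ⟨htouch 0 1 (by decide), htouch 0 2 (by decide),
      htouch 0 3 (by decide)⟩, ⟨htouch 1 2 (by decide), htouch 1 3 (by decide)⟩,
      htouch 2 3 (by decide)⟩
  · intro S hS
    simp only [List.mem_cons, List.not_mem_nil, or_false] at hS
    rcases hS with h | h | h | h | h <;> rw [h]
    · exact Set.singleton_subset_iff.2 huZ
    · exact hBZ 0
    · exact hBZ 1
    · exact hBZ 2
    · exact hBZ 3

end NApexGraphs.Dom.Helper83
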